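import Pool.Agent.Helper71.BM.Basic

set_option autoImplicit false

/-! (CLG) several cyclic sequences of ears are closed by disjoint links -/

namespace Pool.Agent.Helper71.BM

open Finset ErdPos

theorem clg_perm4 {α : Type*} (a b c d : List α) :
    ((a ++ b) ++ (c ++ d)).Perm ((a ++ c) ++ (b ++ d)) := by
  have h1 : ((a ++ b) ++ (c ++ d)) = a ++ (b ++ (c ++ d)) := by simp
  have h2 : ((a ++ c) ++ (b ++ d)) = a ++ (c ++ (b ++ d)) := by simp
  rw [h1, h2]
  refine List.Perm.append_left a ?_
  rw [← List.append_assoc, ← List.append_assoc]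
  exact List.Perm.append_right d List.perm_append_comm

theorem clg_zip_perm {α β γ : Type*} (f : α → List γ) (g : β → List γ) :
    ∀ (l : List α) (l' : List β), l.length = l'.length →
      (List.zipWith (fun p r => f p ++ g r) l l').flatten.Perm
        ((l.map f).flatten ++ (l'.map g).flatten)
  | [], [], _ => by simp
  | p :: l, r :: l', h => by
    have ih := clg_zip_perm f g l l' (by simpa using h)
    simp only [List.zipWith_cons_cons, List.flatten_cons, List.map_cons]
    exact (List.Perm.append_left _ ih).trans (clg_perm4 _ _ _ _)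
  | [], _ :: _, h => by simp at h
  | _ :: _, [], h => by simp at h

theorem clg_links_length (c : List (ℕ × ℕ)) : (links c).length = c.length := by
  simp [links]

theorem clg_links_get {c : List (ℕ × ℕ)} {i : ℕ} {r : ℕ × ℕ} (h : (links c)[i]? = some r) :
    ∃ p p', (c)[i]? = some p ∧ (c)[(i + 1) % c.length]? = some p' ∧ r = (p.2, p'.1) := by
  unfold links at h
  rw [List.getElem?_zipWith'] at h
  have hi : i < c.length := by
    by_contra hcon
    rw [List.getElem?_eq_none (by omega)] at h
    simp at h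
  rw [List.getElem?_rotate hi] at h
  have hj : (i + 1) % c.length < c.length := Nat.mod_lt _ (by omega)
  refine ⟨(c)[i], (c)[(i + 1) % c.length], List.getElem?_eq_getElem hi,
    List.getElem?_eq_getElem hj, ?_⟩
  rw [List.getElem?_eq_getElem hi, List.getElem?_eq_getElem hj] at h
  simpa using h.symm

theorem clg_links_mem {c : List (ℕ × ℕ)} {r : ℕ × ℕ} (h : r ∈ links c) :
    (∃ p ∈ c, r.1 = p.2) ∧ ∃ p ∈ c, r.2 = p.1 := by
  obtain ⟨i, hi⟩ := List.mem_iff_getElem?.1 h
  obtain ⟨p, p', h1, h2, rfl⟩ := clg_links_get hi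
  exact ⟨⟨p, List.mem_of_getElem? h1, rfl⟩, ⟨p', List.mem_of_getElem? h2, rfl⟩⟩

/-- the blocks of the cyclic sequence `c` -/
def clgB {V : Type} (E I : ℕ × ℕ → List V) (c : List (ℕ × ℕ)) : List (List V) :=
  List.zipWith (fun p r => E p ++ I r) c (links c)

theorem clgB_length {V : Type} (E I : ℕ × ℕ → List V) (c : List (ℕ × ℕ)) :
    (clgB E I c).length = c.length := by
  unfold clgB
  rw [List.length_zipWith, clg_links_length, min_self]

theorem clgB_get {V : Type} {E I : ℕ × ℕ → List V} {c : List (ℕ × ℕ)} {i : ℕ} {b : List V}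
    (h : (clgB E I c)[i]? = some b) :
    ∃ p p', (c)[i]? = some p ∧ (c)[(i + 1) % c.length]? = some p' ∧ (p.2, p'.1) ∈ links c ∧
      b = E p ++ I (p.2, p'.1) := by
  unfold clgB at h
  rw [List.getElem?_zipWith'] at h
  have hi : i < c.length := by
    by_contra hcon
    rw [List.getElem?_eq_none (by omega)] at h
    simp at h
  have hi2 : i < (links c).length := by rw [clg_links_length]; exact hi
  obtain ⟨p, p', h1, h2, h3⟩ := clg_links_get (List.getElem?_eq_getElem hi2)
  refine ⟨p, p', h1, h2, h3 ▸ List.getElem_mem hi2, ?_⟩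
  rw [h1, List.getElem?_eq_getElem hi2, h3] at h
  simpa using h.symm

theorem clgB_perm {V : Type} (E I : ℕ × ℕ → List V) (c : List (ℕ × ℕ)) :
    (clgB E I c).flatten.Perm ((c.map E).flatten ++ ((links c).map I).flatten) :=
  clg_zip_perm E I c (links c) (clg_links_length c).symm

theorem clg_all_perm {V : Type} (E I : ℕ × ℕ → List V) : ∀ cs : List (List (ℕ × ℕ)),
    (cs.map (fun c => (clgB E I c).flatten)).flatten.Perm
      ((cs.flatten.map E).flatten ++ (((cs.map links).flatten).map I).flatten)
  | [] => by simp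
  | c :: cs => by
    have ih := clg_all_perm E I cs
    simp only [List.map_cons, List.flatten_cons, List.map_append, List.flatten_append]
    exact ((clgB_perm E I c).append ih).trans (clg_perm4 _ _ _ _)

theorem st_CLG (h1 : ST_JOIN) : ST_CLG := by
  intro V _ _ G F q N W t hub cs E hne hNC hear hnd hlen
  classical
  obtain ⟨μ, hμ⟩ : ∃ μ, μ = (cs.map links).flatten := ⟨_, rfl⟩
  rw [← hμ] at hNC
  have hμc : ∀ r ∈ μ, ∃ c ∈ cs, r ∈ links c := by
    intro r hr
    rw [hμ, List.mem_flatten] at hr
    obtain ⟨l, hl, hrl⟩ := hr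
    obtain ⟨c, hc, rfl⟩ := List.mem_map.1 hl
    exact ⟨c, hc, hrl⟩
  have hcμ : ∀ c ∈ cs, ∀ r ∈ links c, r ∈ μ := by
    intro c hc r hr
    rw [hμ, List.mem_flatten]
    exact ⟨links c, List.mem_map_of_mem hc, hr⟩
  have hlt : ∀ r ∈ μ, r.1 < q ∧ r.2 < q := by
    intro r hr
    obtain ⟨c, hc, hrc⟩ := hμc r hr
    obtain ⟨⟨p, hp, e1⟩, ⟨p', hp', e2⟩⟩ := clg_links_mem hrc
    rw [e1, e2]
    exact ⟨(hear c hc p hp).2.1, (hear c hc p' hp').1⟩
  obtain ⟨Z, hZ1, hZ2⟩ := hub.lnk μ hNC hlt
  have hmid : ∀ r ∈ μ, ∃ l : List V, PL G (t r.1) (t r.2) (t r.1 :: l ++ [t r.2]) ∧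
      ∀ v ∈ l, v ∈ Z r ∧ v ∈ W := by
    intro r hr
    obtain ⟨hc, ha, hb, hw⟩ := hZ1 r hr
    have hne' : t r.1 ≠ t r.2 := by
      intro h
      exact hNC.1 r hr (hub.inj _ (hlt r hr).1 _ (hlt r hr).2 h)
    obtain ⟨l, hl, hv⟩ := exists_PL_mid hc ha hb hne'
    refine ⟨l, hl, fun v hv' => ?_⟩
    obtain ⟨h2, h3, h4⟩ := hv v hv'
    refine ⟨h2, ?_⟩
    rcases hw v h2 with h | h | h
    · exact h
    · exact absurd h h3
    · exact absurd h h4
  obtain ⟨I, hI⟩ : ∃ I : ℕ × ℕ → List V, ∀ r ∈ μ,
      PL G (t r.1) (t r.2) (t r.1 :: I r ++ [t r.2]) ∧ ∀ v ∈ I r, v ∈ Z r ∧ v ∈ W :=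
    ⟨fun r => if h : r ∈ μ then (hmid r h).choose else [], fun r hr => by
      simp only [dif_pos hr]
      exact (hmid r hr).choose_spec⟩
  -- disjointness
  have hInd : ((μ.map I).flatten).Nodup := by
    rw [List.nodup_flatten]
    constructor
    · intro l hl
      obtain ⟨r, hr, rfl⟩ := List.mem_map.1 hl
      have h2 := (hI r hr).1.2.2.1
      rw [List.nodup_append] at h2
      exact (List.nodup_cons.1 h2.1).2
    · rw [List.pairwise_map]
      refine hNC.2.imp_of_mem ?_
      intro r r' hr hr' hcr v hv hv'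
      have hne' : r ≠ r' := fun h => hcr.1.1 (congrArg Prod.fst h)
      exact Finset.disjoint_left.1 (hZ2 r hr r' hr' hne') ((hI r hr).2 v hv).1
        ((hI r' hr').2 v hv').1
  have hEW : ∀ v ∈ (cs.flatten.map E).flatten, v ∉ W := by
    intro v hv
    rw [List.mem_flatten] at hv
    obtain ⟨l, hl, hvl⟩ := hv
    obtain ⟨p, hp, rfl⟩ := List.mem_map.1 hl
    obtain ⟨c, hc, hpc⟩ := List.mem_flatten.1 hp
    exact (hear c hc p hpc).2.2.2.2.1 v hvl
  have hIW : ∀ v ∈ (μ.map I).flatten, v ∈ W := by
    intro v hv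
    rw [List.mem_flatten] at hv
    obtain ⟨l, hl, hvl⟩ := hv
    obtain ⟨r, hr, rfl⟩ := List.mem_map.1 hl
    exact ((hI r hr).2 v hvl).2
  have hall : ((cs.map (fun c => (clgB E I c).flatten)).flatten).Nodup := by
    rw [(clg_all_perm E I cs).nodup_iff, ← hμ, List.nodup_append]
    refine ⟨hnd, hInd, ?_⟩
    rintro v hv w hw rfl
    exact hEW v hv (hIW v hw)
  refine ⟨cs.map (fun c => (clgB E I c).flatten), by simp, hall, ?_⟩
  intro i c z hc hz
  have hcm : c ∈ cs := List.mem_of_getElem? hc
  have hzc : z = (clgB E I c).flatten := by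
    rw [List.getElem?_map, hc] at hz
    simpa using hz.symm
  have hznd : z.Nodup := nodup_of_mem_flatten hall (List.mem_of_getElem? hz)
  refine ⟨?_, ?_, ?_⟩
  · rw [hzc]
    refine h1 V G (clgB E I c) ?_ ?_ (hzc ▸ hznd) ?_ ?_
    · intro h
      have := clgB_length E I c
      rw [h] at this
      exact hne c hcm (List.length_eq_zero_iff.1 (by simpa using this.symm))
    · intro b hb
      obtain ⟨j, hj⟩ := List.mem_iff_getElem?.1 hb
      obtain ⟨p, p', hp, hp', hr, rfl⟩ := clgB_get hj
      have hep := (hear c hcm p (List.mem_of_getElem? hp)).2.2.2.1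
      have hir := (hI _ (hcμ c hcm _ hr)).1
      refine ⟨?_, ?_⟩
      · intro h
        exact hep.ne_nil (List.append_eq_nil_iff.1 h).1
      · have h2 := hir.2.2.2
        have h3 : (t p.2 :: I (p.2, p'.1)).IsChain G.Adj := by
          rw [List.isChain_append] at h2
          exact h2.1
        rw [List.isChain_append]
        refine ⟨hep.2.2.2, ?_, ?_⟩
        · cases hI' : I (p.2, p'.1) with
          | nil => simp
          | cons a l =>
            rw [hI'] at h3
            exact h3.tail
        · intro x hx y hy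
          rw [hep.2.1] at hx
          have hx2 : t p.2 = x := by simpa using hx
          subst hx2
          cases hI' : I (p.2, p'.1) with
          | nil =>
            rw [hI'] at hy
            simp at hy
          | cons a l =>
            rw [hI'] at hy h3
            have hy2 : a = y := by simpa using hy
            subst hy2
            exact (List.isChain_cons_cons.1 h3).1
    · rw [(clgB_perm E I c).length_eq, List.length_append]
      have := hlen c hcm
      omega
    · intro j hj b b' x y hb hb' hx hy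
      rw [clgB_length] at hb'
      obtain ⟨p, p', hp, hp', hr, rfl⟩ := clgB_get hb
      obtain ⟨p1, p2, hp1, hp2, hr2, rfl⟩ := clgB_get hb'
      rw [hp'] at hp1
      have e1 : p' = p1 := by simpa using hp1
      subst e1
      have hep := (hear c hcm p (List.mem_of_getElem? hp)).2.2.2.1
      have hep' := (hear c hcm p' (List.mem_of_getElem? hp')).2.2.2.1
      have hy2 : t p'.1 = y := by
        obtain ⟨l', hl'⟩ := hep'.eq_cons
        rw [hl'] at hy
        simpa using hy
      have hir := (hI _ (hcμ c hcm _ hr)).1.2.2.2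
      rw [List.isChain_append] at hir
      rw [← hy2]
      refine hir.2.2 x ?_ (t p'.1) (by simp)
      cases hI' : I (p.2, p'.1) with
      | nil =>
        rw [hI', List.append_nil, hep.2.1] at hx
        simpa using hx
      | cons a l =>
        rw [hI'] at hx
        rw [List.getLast?_append_of_ne_nil _ (by simp)] at hx
        rw [List.getLast?_cons_cons, hx]
        rfl
  · intro v hv
    rw [hzc]
    exact (clgB_perm E I c).mem_iff.2 (List.mem_append_left _ hv)
  · intro v hv
    rw [hzc] at hv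
    rcases List.mem_append.1 ((clgB_perm E I c).mem_iff.1 hv) with h | h
    · exact Or.inl h
    · right
      rw [List.mem_flatten] at h
      obtain ⟨l, hl, hvl⟩ := h
      obtain ⟨r, hr, rfl⟩ := List.mem_map.1 hl
      exact ((hI r (hcμ c hcm r hr)).2 v hvl).2

end Pool.Agent.Helper71.BM
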