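import Pool.Agent.Helper71.BM.Basic

set_option autoImplicit false

/-! (EXTL) linkages through `C` -/

namespace Pool.Agent.Helper71.BM

open Finset ErdPos

theorem extl_nb {V : Type} [Fintype V] [DecidableEq V] {G : SimpleGraph V}
    {F : Finset V → Prop} {m : ℕ} {C A : Finset V} {H : SimpleGraph V} (hM : Mesh G F m C A H)
    {S D Y : Finset V} {n : ℕ} (hDC : D ⊆ C) (hDb : Big G F univ D)
    (hDn : Nb G univ D ⊆ S ∪ Nb G univ C) (hY : Y ⊆ Nb G univ C) (hYc : Y.card = n)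
    (hS : S.card < n) : ∃ y ∈ Y, y ∉ S ∧ Ad G y D := by
  by_contra hcon
  push Not at hcon
  have h1 : Nb G univ D ⊆ (Nb G univ C \ Y) ∪ S := by
    intro v hv
    rcases mem_union.1 (hDn hv) with h | h
    · exact mem_union_right _ h
    · by_cases hvS : v ∈ S
      · exact mem_union_right _ hvS
      · refine mem_union_left _ (mem_sdiff.2 ⟨h, fun hvY => ?_⟩)
        exact hcon v hvY hvS (mem_Nb.1 hv).2.2
  have h2 := hM.free D hDb hDC
  have h3 := card_le_card h1
  have h4 := card_union_le (Nb G univ C \ Y) S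
  have h5 := card_sdiff_add_card_eq_card hY
  have h6 := hM.card
  omega

theorem st_EXTL (h1 : ST_MLP) : ST_EXTL := by
  intro V _ _ G F m C A H hav hM Y Z n hY hZ hYZ hYc hZc
  refine h1 V (Gx G (Nb G univ C)) (C ∪ Y ∪ Z) Y Z n ?_
  intro S hS
  have hnm : n ≤ m := by
    rw [← hYc, ← hM.card]
    exact card_le_card hY
  have hcard : (S ∪ Nb G univ C).card ≤ 2 * m := by
    have := card_union_le S (Nb G univ C)
    have h6 := hM.card
    omega
  obtain ⟨D, hD⟩ : ∃ D, D = bt G F univ (S ∪ Nb G univ C) := ⟨_, rfl⟩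
  have hDbt : IsBt G F univ (S ∪ Nb G univ C) D := by
    rw [hD]
    exact hav.isBt hcard
  have hCbt : IsBt G F univ (Nb G univ C) C :=
    Big.isBt hav hM.big (by rw [hM.card]; omega)
  have hDC : D ⊆ C := by
    have h2 := bt_anti (G := G) (F := F) hav (Z := Nb G univ C) (Z' := S ∪ Nb G univ C)
      subset_union_right hcard
    rw [← hD, hCbt.eq_bt] at h2
    exact h2
  have hDn := hDbt.Nb_subset
  obtain ⟨y, hyY, hyS, d, hd, hyd⟩ := extl_nb hM hDC hDbt.big hDn hY hYc hS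
  obtain ⟨z, hzZ, hzS, d', hd', hzd⟩ := extl_nb hM hDC hDbt.big hDn hZ hZc hS
  have hDN : ∀ v ∈ D, v ∉ Nb G univ C ∧ v ∉ S := by
    intro v hv
    have h2 := mem_sdiff.1 (hDbt.1 hv)
    rw [mem_union, not_or] at h2
    exact ⟨h2.2.2, h2.2.1⟩
  have hconn : Conn (Gx G (Nb G univ C)) D := by
    refine ⟨hDbt.2.1.1, ?_⟩
    intro B hB hne hBne
    obtain ⟨a, ha, b, hb, hab⟩ := hDbt.2.1.2 B hB hne hBne
    exact ⟨a, ha, b, hb, hab, fun h => (hDN a (hB ha)).1 h.1⟩
  have hconn2 : Conn (Gx G (Nb G univ C)) (insert z D) :=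
    hconn.insert hd' ⟨hzd.symm, fun h => (hDN d' hd').1 h.1⟩
  have hconn3 : Conn (Gx G (Nb G univ C)) (insert y (insert z D)) :=
    hconn2.insert (mem_insert_of_mem hd) ⟨hyd.symm, fun h => (hDN d hd).1 h.1⟩
  obtain ⟨l, hl, hlm⟩ := exists_PL_of_conn hconn3 (mem_insert_self y _)
    (mem_insert_of_mem (mem_insert_self z D))
  refine ⟨y, hyY, z, hzZ, l, hl, ?_⟩
  intro v hv
  rcases mem_insert.1 (hlm v hv) with rfl | h
  · exact ⟨by simp [hyY], hyS⟩
  · rcases mem_insert.1 h with rfl | h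
    · exact ⟨by simp [hzZ], hzS⟩
    · exact ⟨by simp [hDC h], (hDN v h).2⟩

end Pool.Agent.Helper71.BM
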