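import Pool.Agent.Helper71.BM.Basic

set_option autoImplicit false

/-! (SC) one cyclic sequence with non-crossing links -/

namespace Pool.Agent.Helper71.BM

open Finset ErdPos

/-- the chord or the reversed chord is in the list -/
def sc_in (p : ℕ × ℕ) (c : List (ℕ × ℕ)) : Prop := p ∈ c ∨ p.swap ∈ c

theorem sc_in_swap {p : ℕ × ℕ} {c : List (ℕ × ℕ)} (h : sc_in p c) : sc_in p.swap c := by
  rcases h with h | h
  · right
    simpa using h
  · left
    exact h

theorem sc_links_eq (c : List (ℕ × ℕ)) :
    links c = List.zip (c.map Prod.snd) ((c.rotate 1).map Prod.fst) := by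
  unfold links
  rw [List.zip, List.zipWith_map]

theorem sc_links_rotate (c : List (ℕ × ℕ)) (n : ℕ) : links (c.rotate n) = (links c).rotate n := by
  unfold links
  rw [List.zipWith_rotate_distrib _ _ _ _ (by simp), List.rotate_rotate, List.rotate_rotate,
    add_comm]

theorem sc_NCr_symm {p q : ℕ × ℕ} (h : NCr p q) : NCr q p :=
  ⟨⟨h.1.1.symm, h.1.2.2.1.symm, h.1.2.1.symm, h.1.2.2.2.symm⟩, h.2.2, h.2.1⟩

theorem sc_NC_perm {l l' : List (ℕ × ℕ)} (h : l.Perm l') (hl : NC l) : NC l' :=
  ⟨fun p hp => hl.1 p (h.mem_iff.2 hp), (h.pairwise_iff (fun {_ _} => sc_NCr_symm)).1 hl.2⟩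

theorem sc_ends_cons (p : ℕ × ℕ) (l : List (ℕ × ℕ)) :
    (ends (p :: l)).Perm (p.1 :: p.2 :: ends l) := by
  unfold ends
  simp only [List.map_cons, List.cons_append]
  refine List.Perm.cons _ ?_
  exact List.perm_middle

theorem sc_ends_perm {l l' : List (ℕ × ℕ)} (h : l.Perm l') : (ends l).Perm (ends l') :=
  List.Perm.append (h.map _) (h.map _)

theorem sc_ends_length (l : List (ℕ × ℕ)) : (ends l).length = 2 * l.length := by
  unfold ends
  simp [two_mul]

theorem sc_mem_ends {z : ℕ} {l : List (ℕ × ℕ)} : z ∈ ends l ↔ ∃ w, sc_in (w, z) l := by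
  unfold ends sc_in
  simp only [List.mem_append, List.mem_map, Prod.swap_prod_mk]
  constructor
  · rintro (⟨p, hp, rfl⟩ | ⟨p, hp, rfl⟩)
    · exact ⟨p.2, Or.inr hp⟩
    · exact ⟨p.1, Or.inl hp⟩
  · rintro ⟨w, h | h⟩
    · exact Or.inr ⟨_, h, rfl⟩
    · exact Or.inl ⟨_, h, rfl⟩

theorem sc_links_ends {q : ℕ × ℕ} {c : List (ℕ × ℕ)} (h : q ∈ links c) :
    q.1 ∈ ends c ∧ q.2 ∈ ends c := by
  rw [sc_links_eq] at h
  have h1 := List.of_mem_zip (a := q.1) (b := q.2) h
  unfold ends
  refine ⟨List.mem_append_right _ h1.1, List.mem_append_left _ ?_⟩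
  have h2 := h1.2
  rw [List.map_rotate, List.mem_rotate] at h2
  exact h2

theorem sc_links_step (x u u' y : ℕ) (r : List (ℕ × ℕ)) :
    links ((x, u) :: (u', y) :: r) = (u, u') :: links ((x, y) :: r) := by
  rw [sc_links_eq, sc_links_eq]
  simp

/-- the new link does not cross the old ones -/
theorem sc_new {u u' s t : ℕ} (h1 : s ≠ u) (h2 : s ≠ u') (h3 : t ≠ u) (h4 : t ≠ u')
    (hs : ¬ (min u u' < s ∧ s < max u u')) (ht : ¬ (min u u' < t ∧ t < max u u')) :
    NCr (u, u') (s, t) := by
  refine ⟨⟨h1.symm, h3.symm, h2.symm, h4.symm⟩, ?_, ?_⟩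
  · rintro ⟨a, b, -⟩
    rcases le_total s t with h | h
    · simp only [min_eq_left h] at a b
      exact hs ⟨a, b⟩
    · simp only [min_eq_right h] at a b
      exact ht ⟨a, b⟩
  · rintro ⟨-, a, b⟩
    rcases le_total s t with h | h
    · simp only [max_eq_right h] at a b
      exact ht ⟨a, b⟩
    · simp only [max_eq_left h] at a b
      exact hs ⟨a, b⟩

/-- what is proved by induction -/
structure ScGood (c c' : List (ℕ × ℕ)) : Prop where
  perm : (ends c').Perm (ends c)
  fwd : ∀ p ∈ c', sc_in p c
  bwd : ∀ p ∈ c, sc_in p c'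
  nc : NC (links c')

theorem sc_step {c rest c'' : List (ℕ × ℕ)} {x u u' y : ℕ} (hx : sc_in (x, u) c)
    (hy : sc_in (u', y) c)
    (hcov : ∀ p ∈ c, p ∈ rest ∨ p = (x, u) ∨ p = (u, x) ∨ p = (u', y) ∨ p = (y, u'))
    (hrest : ∀ p ∈ rest, p ∈ c) (hE : (ends c).Perm (x :: u :: u' :: y :: ends rest))
    (hnd : (ends c).Nodup)
    (hadj : ∀ z ∈ ends c, z ≠ u → z ≠ u' → ¬ (min u u' < z ∧ z < max u u'))
    (hE2 : (ends c'').Perm (x :: y :: ends rest))
    (hA : ∀ p ∈ c'', sc_in p ((x, y) :: rest)) (hB : ∀ p ∈ rest, sc_in p c'')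
    (hnc : NC (links c'')) (hm : (x, y) ∈ c'') : ∃ c', ScGood c c' := by
  obtain ⟨l1, l2, hl⟩ := List.append_of_mem hm
  obtain ⟨r, hr⟩ : ∃ r, r = l2 ++ l1 := ⟨_, rfl⟩
  have hrot : c''.rotate l1.length = (x, y) :: r := by
    rw [hl, List.rotate_append_length_eq, hr]
    rfl
  have hnc2 : NC (links ((x, y) :: r)) := by
    rw [← hrot, sc_links_rotate]
    exact sc_NC_perm (List.rotate_perm _ _).symm hnc
  have hperm : c''.Perm ((x, y) :: r) := by
    rw [← hrot]
    exact (List.rotate_perm _ _).symm
  have hEr : (ends r).Perm (ends rest) := by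
    have h1 : (x :: y :: ends r).Perm (x :: y :: ends rest) :=
      (sc_ends_cons (x, y) r).symm.trans ((sc_ends_perm hperm).symm.trans hE2)
    exact ((List.perm_cons _).1 ((List.perm_cons _).1 h1))
  have hnd2 : (x :: u :: u' :: y :: ends rest).Nodup := hE.nodup_iff.1 hnd
  have hnd3 : (x :: u :: u' :: y :: ends r).Nodup := by
    refine (List.Perm.nodup_iff ?_).1 hnd2
    exact ((((hEr.symm.cons y).cons u').cons u).cons x)
  simp only [List.nodup_cons, List.mem_cons, not_or] at hnd2 hnd3
  obtain ⟨⟨d1, d2, d3, d4⟩, ⟨d5, d6, d7⟩, ⟨d8, d9⟩, d10, -⟩ := hnd2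
  obtain ⟨⟨-, -, -, f4⟩, ⟨-, -, f7⟩, ⟨-, f9⟩, f10, -⟩ := hnd3
  refine ⟨(x, u) :: (u', y) :: r, ?_, ?_, ?_, ?_⟩
  · refine (sc_ends_cons _ _).trans (List.Perm.trans ?_ hE.symm)
    refine List.Perm.cons _ (List.Perm.cons _ ?_)
    refine (sc_ends_cons _ _).trans ?_
    exact List.Perm.cons _ (List.Perm.cons _ hEr)
  · intro p hp
    rw [List.mem_cons, List.mem_cons] at hp
    rcases hp with rfl | rfl | hp
    · exact hx
    · exact hy
    · have hpe : p.1 ∈ ends r ∧ p.2 ∈ ends r :=
        ⟨sc_mem_ends.2 ⟨p.2, Or.inr hp⟩, sc_mem_ends.2 ⟨p.1, Or.inl hp⟩⟩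
      have h1 : p ∈ c'' := hperm.mem_iff.2 (List.mem_cons_of_mem _ hp)
      rcases hA p h1 with h | h
      · rcases List.mem_cons.1 h with rfl | h
        · exact absurd hpe.1 f4
        · exact Or.inl (hrest _ h)
      · rcases List.mem_cons.1 h with h | h
        · have h2 : p.2 = x := by
            have := congrArg Prod.fst h
            simpa using this
          exact absurd (h2 ▸ hpe.2) f4
        · exact Or.inr (hrest _ h)
  · intro p hp
    rcases hcov p hp with h | rfl | rfl | rfl | rfl
    · rcases hB p h with h1 | h1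
      · rcases List.mem_cons.1 (hperm.mem_iff.1 h1) with h2 | h2
        · exfalso
          apply d4
          exact sc_mem_ends.2 ⟨y, Or.inr (by rw [Prod.swap_prod_mk, ← h2]; exact h)⟩
        · exact Or.inl (by simp [h2])
      · rcases List.mem_cons.1 (hperm.mem_iff.1 h1) with h2 | h2
        · exfalso
          apply d4
          refine sc_mem_ends.2 ⟨y, Or.inl ?_⟩
          have h3 : p = (y, x) := by
            have := congrArg Prod.swap h2
            simpa using this
          rw [← h3]
          exact h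
        · exact Or.inr (by simp [h2])
    · exact Or.inl (by simp)
    · exact Or.inr (by simp)
    · exact Or.inl (by simp)
    · exact Or.inr (by simp)
  · rw [sc_links_step]
    refine ⟨?_, ?_⟩
    · intro p hp
      rcases List.mem_cons.1 hp with rfl | hp
      · exact d5
      · exact hnc2.1 p hp
    · refine List.pairwise_cons.2 ⟨?_, hnc2.2⟩
      rintro ⟨s, t⟩ hq
      have hq2 := sc_links_ends hq
      have key : ∀ z, z ∈ ends ((x, y) :: r) → z ≠ u ∧ z ≠ u' ∧ z ∈ ends c := by
        intro z hz
        have hz2 : z ∈ x :: y :: ends rest :=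
          hE2.mem_iff.1 ((sc_ends_perm hperm).mem_iff.2 hz)
        have hzc : z ∈ ends c := by
          refine hE.mem_iff.2 ?_
          simp only [List.mem_cons] at hz2 ⊢
          tauto
        refine ⟨?_, ?_, hzc⟩
        · rintro rfl
          simp only [List.mem_cons] at hz2
          rcases hz2 with h | h | h
          · exact d1 h.symm
          · exact d6 h
          · exact d7 h
        · rintro rfl
          simp only [List.mem_cons] at hz2
          rcases hz2 with h | h | h
          · exact d2 h.symm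
          · exact d8 h
          · exact d9 h
      obtain ⟨a1, a2, a3⟩ := key s hq2.1
      obtain ⟨b1, b2, b3⟩ := key t hq2.2
      exact sc_new a1 a2 b1 b2 (hadj s a3 a1 a2) (hadj t b3 b1 b2)

/-- the pairs of ends in different chords -/
def ScPair (c : List (ℕ × ℕ)) (x u u' y : ℕ) : Prop :=
  sc_in (x, u) c ∧ sc_in (u', y) c ∧ (x, u) ≠ (u', y) ∧ (x, u) ≠ (y, u')

theorem sc_main : ∀ (n : ℕ) (c : List (ℕ × ℕ)), c.length = n + 1 → (ends c).Nodup →
    ∃ c', ScGood c c' := by
  intro n
  induction n with
  | zero =>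
    intro c hc hnd
    obtain ⟨p, rfl⟩ := List.length_eq_one_iff.1 hc
    refine ⟨[p], List.Perm.refl _, fun q hq => Or.inl hq, fun q hq => Or.inl hq, ?_, ?_⟩
    · intro q hq
      have h1 : q = (p.2, p.1) := by simpa [links] using hq
      have h2 : p.1 ≠ p.2 := by simpa [ends] using hnd
      rw [h1]
      exact h2.symm
    · simp [links]
  | succ n ih =>
    intro c hc hnd
    classical
    -- a pair with minimal distance
    have hex : ∃ d, ∃ x u u' y, ScPair c x u u' y ∧ max u u' - min u u' = d := by
      match c, hc with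
      | p1 :: p2 :: t, _ =>
        refine ⟨_, p1.1, p1.2, p2.1, p2.2, ⟨Or.inl (by simp), Or.inl (by simp), ?_, ?_⟩, rfl⟩
        · intro h
          have h1 : p1.1 = p2.1 := congrArg Prod.fst h
          simp [ends, h1] at hnd
        · intro h
          have h1 : p1.1 = p2.2 := congrArg Prod.fst h
          simp [ends, h1] at hnd
    obtain ⟨x, u, u', y, hp, hd⟩ := Nat.find_spec hex
    have hmin : ∀ x1 u1 u1' y1, ScPair c x1 u1 u1' y1 →
        max u u' - min u u' ≤ max u1 u1' - min u1 u1' := by
      intro x1 u1 u1' y1 h1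
      rw [hd]
      exact Nat.find_min' hex ⟨x1, u1, u1', y1, h1, rfl⟩
    obtain ⟨hx, hy, hne1, hne2⟩ := hp
    have hadj : ∀ z ∈ ends c, z ≠ u → z ≠ u' → ¬ (min u u' < z ∧ z < max u u') := by
      rintro z hz hzu hzu' ⟨hz1, hz2⟩
      obtain ⟨w, hw⟩ := sc_mem_ends.1 hz
      by_cases hsame : (w, z) = (u, x)
      · have e1 : w = u := congrArg Prod.fst hsame
        have e2 : z = x := congrArg Prod.snd hsame
        subst e2
        have h1 := hmin u z u' y ⟨sc_in_swap hx, hy, ?_, ?_⟩
        · rcases le_total u u' with h | h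
          · simp only [min_eq_left h, max_eq_right h] at hz1 hz2 h1
            rw [min_eq_left hz2.le, max_eq_right hz2.le] at h1
            omega
          · simp only [min_eq_right h, max_eq_left h] at hz1 hz2 h1
            rw [min_eq_right hz1.le, max_eq_left hz1.le] at h1
            omega
        · intro h
          apply hne2
          have h1 := congrArg Prod.fst h
          have h2 := congrArg Prod.snd h
          simp only at h1 h2
          rw [h1, h2]
        · intro h
          apply hne1
          have h1 := congrArg Prod.fst h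
          have h2 := congrArg Prod.snd h
          simp only at h1 h2
          rw [h1, h2]
      · have h1 := hmin x u z w ⟨hx, sc_in_swap hw, ?_, ?_⟩
        · rcases le_total u u' with h | h
          · simp only [min_eq_left h, max_eq_right h] at hz1 hz2 h1
            rw [min_eq_left hz1.le, max_eq_right hz1.le] at h1
            omega
          · simp only [min_eq_right h, max_eq_left h] at hz1 hz2 h1
            rw [min_eq_right hz2.le, max_eq_left hz2.le] at h1
            omega
        · intro h
          apply hsame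
          have h1 := congrArg Prod.fst h
          have h2 := congrArg Prod.snd h
          simp only at h1 h2
          rw [h1, h2]
        · intro h
          apply hzu
          exact (congrArg Prod.snd h).symm
    -- the two chords
    obtain ⟨P, hP, hPe⟩ : ∃ P ∈ c, P = (x, u) ∨ P = (u, x) := by
      rcases hx with h | h
      · exact ⟨_, h, Or.inl rfl⟩
      · exact ⟨_, h, Or.inr rfl⟩
    obtain ⟨Q, hQ, hQe⟩ : ∃ Q ∈ c, Q = (u', y) ∨ Q = (y, u') := by
      rcases hy with h | h
      · exact ⟨_, h, Or.inl rfl⟩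
      · exact ⟨_, h, Or.inr rfl⟩
    have hPQ : Q ≠ P := by
      intro h
      rcases hPe with hP1 | hP1 <;> rcases hQe with hQ1 | hQ1 <;> rw [hP1, hQ1] at h
      · exact hne1 h.symm
      · exact hne2 h.symm
      · apply hne2
        have h1 := congrArg Prod.fst h
        have h2 := congrArg Prod.snd h
        simp only at h1 h2
        rw [h1, h2]
      · apply hne1
        have h1 := congrArg Prod.fst h
        have h2 := congrArg Prod.snd h
        simp only at h1 h2
        rw [h1, h2]
    obtain ⟨rest, hrest⟩ : ∃ rest, rest = (c.erase P).erase Q := ⟨_, rfl⟩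
    have hcp : c.Perm (P :: Q :: rest) := by
      refine (List.perm_cons_erase hP).trans (List.Perm.cons _ ?_)
      rw [hrest]
      exact List.perm_cons_erase ((List.mem_erase_of_ne hPQ).2 hQ)
    have hE : (ends c).Perm (x :: u :: u' :: y :: ends rest) := by
      refine (sc_ends_perm hcp).trans ((sc_ends_cons _ _).trans ?_)
      have h1 : (ends (Q :: rest)).Perm (u' :: y :: ends rest) := by
        refine (sc_ends_cons _ _).trans ?_
        rcases hQe with h | h
        · rw [h]
        · rw [h]
          exact List.Perm.swap _ _ _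
      rcases hPe with h | h
      · rw [h]
        exact List.Perm.cons _ (List.Perm.cons _ h1)
      · rw [h]
        exact (List.Perm.swap _ _ _).trans (List.Perm.cons _ (List.Perm.cons _ h1))
    have hcov : ∀ p ∈ c, p ∈ rest ∨ p = (x, u) ∨ p = (u, x) ∨ p = (u', y) ∨ p = (y, u') := by
      intro p hp
      have h1 := hcp.mem_iff.1 hp
      simp only [List.mem_cons] at h1
      rcases h1 with h1 | h1 | h1
      · rcases hPe with h | h
        · exact Or.inr (Or.inl (h1.trans h))
        · exact Or.inr (Or.inr (Or.inl (h1.trans h)))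
      · rcases hQe with h | h
        · exact Or.inr (Or.inr (Or.inr (Or.inl (h1.trans h))))
        · exact Or.inr (Or.inr (Or.inr (Or.inr (h1.trans h))))
      · exact Or.inl h1
    have hrc : ∀ p ∈ rest, p ∈ c := fun p hp => hcp.mem_iff.2 (by simp [hp])
    have hlen : ((x, y) :: rest).length = n + 1 := by
      have := hcp.length_eq
      simp only [List.length_cons] at this ⊢
      omega
    have hnd2 : (ends ((x, y) :: rest)).Nodup := by
      refine (sc_ends_cons _ _).nodup_iff.2 ?_
      have h1 := hE.nodup_iff.1 hnd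
      simp only [List.nodup_cons, List.mem_cons, not_or] at h1 ⊢
      exact ⟨⟨h1.1.2.2.1, h1.1.2.2.2⟩, h1.2.2.2.1, h1.2.2.2.2⟩
    obtain ⟨c'', hg⟩ := ih _ hlen hnd2
    have hE2 : (ends c'').Perm (x :: y :: ends rest) := hg.perm.trans (sc_ends_cons _ _)
    rcases hg.bwd (x, y) (by simp) with hm | hm
    · exact sc_step hx hy hcov hrc hE hnd hadj hE2 hg.fwd
        (fun p hp => hg.bwd p (List.mem_cons_of_mem _ hp)) hg.nc hm
    · refine sc_step (x := y) (u := u') (u' := u) (y := x) (sc_in_swap hy) (sc_in_swap hx) ?_ hrc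
        ?_ hnd ?_ ?_ ?_ (fun p hp => hg.bwd p (List.mem_cons_of_mem _ hp)) hg.nc hm
      · intro p hp
        rcases hcov p hp with h | h | h | h | h
        · exact Or.inl h
        · exact Or.inr (Or.inr (Or.inr (Or.inr h)))
        · exact Or.inr (Or.inr (Or.inr (Or.inl h)))
        · exact Or.inr (Or.inr (Or.inl h))
        · exact Or.inr (Or.inl h)
      · refine hE.trans ?_
        have h1 : (x :: u :: u' :: y :: ends rest) = [x, u, u', y] ++ ends rest := rfl
        have h2 : (y :: u' :: u :: x :: ends rest) = [y, u', u, x] ++ ends rest := rfl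
        rw [h1, h2]
        exact List.Perm.append_right _ (List.reverse_perm [x, u, u', y]).symm
      · intro z hz h1 h2 h3
        rw [min_comm, max_comm] at h3
        exact hadj z hz h2 h1 h3
      · exact hE2.trans (List.Perm.swap _ _ _)
      · intro p hp
        rcases hg.fwd p hp with h | h
        · rcases List.mem_cons.1 h with rfl | h
          · exact Or.inr (by simp)
          · exact Or.inl (List.mem_cons_of_mem _ h)
        · rcases List.mem_cons.1 h with h | h
          · left
            have h1 : p = (y, x) := by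
              have := congrArg Prod.swap h
              simpa using this
            rw [h1]
            simp
          · exact Or.inr (List.mem_cons_of_mem _ h)

theorem st_SC : ST_SC := by
  intro c hne hnd
  obtain ⟨n, hn⟩ : ∃ n, c.length = n + 1 :=
    ⟨c.length - 1, by have := List.length_pos_iff.2 hne; omega⟩
  obtain ⟨c', hg⟩ := sc_main n c hn hnd
  refine ⟨c', ?_, hg.perm.nodup_iff.2 hnd, hg.fwd, hg.nc⟩
  have h1 := hg.perm.length_eq
  rw [sc_ends_length, sc_ends_length] at h1
  omega

end Pool.Agent.Helper71.BM
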